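import Pool.Agent.W_MP_cd67d3_gt.Encode

/-!
Cutting off diffeomorphisms which are `C¹`-close to the identity.
-/

open scoped ContDiff Topology NNReal
open Filter

namespace Pool.Agent.W_MP_cd67d3_gt

variable {E : Type*} [NormedAddCommGroup E] [NormedSpace ℝ E] [FiniteDimensional ℝ E]

/-- A small `C^r` perturbation of the identity is a `C^r` diffeomorphism. -/
lemma exists_diffeo_of_small {r : ℕ∞} (hr : 1 ≤ r) {w : E → E} (hw : ContDiff ℝ r w)
    (hb : ∀ x, ‖fderiv ℝ w x‖ ≤ 1 / 2) :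
    ∃ G : E ≃ₜ E, IsDiffeo r G ∧ ∀ x, G x = x + w x := by
  have hcomplete : CompleteSpace E := FiniteDimensional.complete ℝ E
  have hr1 : (1 : ℕ∞ω) ≤ (r : ℕ∞ω) := by exact_mod_cast hr
  have hdiff : Differentiable ℝ w := hw.differentiable (by
    intro h
    rw [h] at hr1
    exact absurd hr1 (by norm_num))
  have hlip : LipschitzWith (1 / 2) w := by
    apply lipschitzWith_of_nnnorm_fderiv_le hdiff
    intro x
    rw [← NNReal.coe_le_coe, coe_nnnorm]
    simpa using hb x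
  have happ : ApproximatesLinearOn (fun x => x + w x)
      ((ContinuousLinearEquiv.refl ℝ E : E ≃L[ℝ] E) : E →L[ℝ] E) Set.univ (1 / 2) := by
    intro x _ y _
    have e : x + w x - (y + w y) - ((ContinuousLinearEquiv.refl ℝ E : E ≃L[ℝ] E) : E →L[ℝ] E) (x - y)
        = w x - w y := by
      simp; abel
    rw [e]
    have := hlip.dist_le_mul x y
    rwa [dist_eq_norm, dist_eq_norm] at this
  have hc : Subsingleton E ∨ (1 / 2 : ℝ≥0) <
      ‖(((ContinuousLinearEquiv.refl ℝ E : E ≃L[ℝ] E).symm : E ≃L[ℝ] E) : E →L[ℝ] E)‖₊⁻¹ := by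
    rcases subsingleton_or_nontrivial E with h | h
    · left; exact h
    · right
      have e : ‖(((ContinuousLinearEquiv.refl ℝ E : E ≃L[ℝ] E).symm : E ≃L[ℝ] E) : E →L[ℝ] E)‖₊ = 1 := by
        have : (((ContinuousLinearEquiv.refl ℝ E : E ≃L[ℝ] E).symm : E ≃L[ℝ] E) : E →L[ℝ] E) =
            ContinuousLinearMap.id ℝ E := rfl
        rw [this]
        apply NNReal.coe_injective
        rw [coe_nnnorm, ContinuousLinearMap.norm_id]
        rfl
      rw [e, inv_one]
      rw [← NNReal.coe_lt_coe]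
      norm_num
  set G : E ≃ₜ E := happ.toHomeomorph _ hc with hG
  have hGx : ∀ x, G x = x + w x := fun x => rfl
  refine ⟨G, ⟨?_, ?_⟩, hGx⟩
  · have : (G : E → E) = fun x => x + w x := funext hGx
    rw [this]
    exact contDiff_id.add hw
  · have hGC : ContDiff ℝ r (G : E → E) := by
      have : (G : E → E) = fun x => x + w x := funext hGx
      rw [this]
      exact contDiff_id.add hw
    have hlt : ∀ x, ‖-(fderiv ℝ w x)‖ < 1 := by
      intro x
      rw [norm_neg]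
      linarith [hb x]
    refine G.contDiff_symm (f₀' := fun x =>
      ContinuousLinearEquiv.unitsEquiv ℝ E (Units.oneSub (-(fderiv ℝ w x)) (hlt x))) ?_ hGC
    intro x
    have h1 : HasFDerivAt (fun x => x + w x) (ContinuousLinearMap.id ℝ E + fderiv ℝ w x) x :=
      (hasFDerivAt_id x).add (hdiff x).hasFDerivAt
    have h2 : ((ContinuousLinearEquiv.unitsEquiv ℝ E (Units.oneSub (-(fderiv ℝ w x)) (hlt x)) :
        E ≃L[ℝ] E) : E →L[ℝ] E) = ContinuousLinearMap.id ℝ E + fderiv ℝ w x := by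
      ext y
      change ((Units.oneSub (-(fderiv ℝ w x)) (hlt x) : (E →L[ℝ] E)ˣ) : E →L[ℝ] E) y = _
      rw [Units.val_oneSub]
      simp
    rw [h2]
    exact h1

/-- The cut-off lemma. -/
lemma cutoff (E : Type*) [NormedAddCommGroup E] [NormedSpace ℝ E] [FiniteDimensional ℝ E] :
    ∃ η : ℝ, 0 < η ∧ ∀ (r : ℕ∞), 1 ≤ r → ∀ (R : ℝ), 0 < R → ∀ g : E → E, ContDiff ℝ r g →
      (∀ x, ‖x‖ ≤ 2 * R → ‖fderiv ℝ g x - ContinuousLinearMap.id ℝ E‖ ≤ η ∧ ‖g x - x‖ ≤ η * R) →
      ∃ G : E ≃ₜ E, IsDiffeo r G ∧ (∀ x, 2 * R < ‖x‖ → G x = x) ∧ ∀ x, ‖x‖ ≤ R → G x = g x := by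
  let χ : ContDiffBump (0 : E) := ⟨1, 2, by norm_num, by norm_num⟩
  have hχ1 : ContDiff ℝ 1 χ := χ.contDiff
  have hcs : HasCompactSupport (fderiv ℝ χ) := χ.hasCompactSupport.fderiv ℝ
  obtain ⟨C, hC⟩ := hcs.exists_bound_of_continuous (hχ1.continuous_fderiv (by norm_num))
  have hC0 : 0 ≤ C := le_trans (norm_nonneg _) (hC 0)
  refine ⟨1 / (2 * (C + 1)), by positivity, ?_⟩
  set η : ℝ := 1 / (2 * (C + 1)) with hη
  have hη0 : 0 < η := by positivity
  intro r hr R hR g hg hclose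
  have hr1 : (1 : ℕ∞ω) ≤ (r : ℕ∞ω) := by exact_mod_cast hr
  have hr0 : (r : ℕ∞ω) ≠ 0 := by
    intro h
    rw [h] at hr1
    exact absurd hr1 (by norm_num)
  have hgd : Differentiable ℝ g := hg.differentiable hr0
  set w : E → E := fun x => χ (R⁻¹ • x) • (g x - x) with hw
  have hχr : ContDiff ℝ r (fun x : E => χ (R⁻¹ • x)) :=
    (χ.contDiff (n := (r : ℕ∞))).comp (contDiff_const.smul contDiff_id)
  have hwC : ContDiff ℝ r w := hχr.smul (hg.sub contDiff_id)
  have hzero : ∀ x : E, 2 * R < ‖x‖ → χ (R⁻¹ • x) = 0 := by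
    intro x hx
    apply χ.zero_of_le_dist
    rw [dist_zero_right, norm_smul, Real.norm_eq_abs, abs_of_pos (by positivity)]
    change (2 : ℝ) ≤ R⁻¹ * ‖x‖
    rw [inv_mul_eq_div, le_div_iff₀ hR]
    exact hx.le
  have hone : ∀ x : E, ‖x‖ ≤ R → χ (R⁻¹ • x) = 1 := by
    intro x hx
    apply χ.one_of_mem_closedBall
    rw [mem_closedBall_zero_iff, norm_smul, Real.norm_eq_abs, abs_of_pos (by positivity)]
    change R⁻¹ * ‖x‖ ≤ 1
    rw [inv_mul_eq_div, div_le_one hR]
    exact hx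
  have hbound : ∀ x, ‖fderiv ℝ w x‖ ≤ 1 / 2 := by
    intro x
    rcases le_or_gt ‖x‖ (2 * R) with hx | hx
    · obtain ⟨h1, h2⟩ := hclose x hx
      have hd1 : HasFDerivAt (fun x : E => χ (R⁻¹ • x))
          ((fderiv ℝ χ (R⁻¹ • x)).comp (R⁻¹ • ContinuousLinearMap.id ℝ E)) x := by
        have a1 : HasFDerivAt (fun x : E => R⁻¹ • x) (R⁻¹ • ContinuousLinearMap.id ℝ E) x :=
          (hasFDerivAt_id x).const_smul R⁻¹
        have a2 : HasFDerivAt χ (fderiv ℝ χ (R⁻¹ • x)) (R⁻¹ • x) :=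
          ((hχ1.differentiable (by norm_num)) _).hasFDerivAt
        exact a2.comp x a1
      have hd2 : HasFDerivAt (fun x : E => g x - x)
          (fderiv ℝ g x - ContinuousLinearMap.id ℝ E) x :=
        (hgd x).hasFDerivAt.sub (hasFDerivAt_id x)
      have hd3 : HasFDerivAt w _ x := hd1.smul hd2
      rw [hd3.fderiv]
      have n1 : ‖(fderiv ℝ χ (R⁻¹ • x)).comp (R⁻¹ • ContinuousLinearMap.id ℝ E)‖ ≤ C * R⁻¹ := by
        calc ‖(fderiv ℝ χ (R⁻¹ • x)).comp (R⁻¹ • ContinuousLinearMap.id ℝ E)‖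
            ≤ ‖fderiv ℝ χ (R⁻¹ • x)‖ * ‖R⁻¹ • ContinuousLinearMap.id ℝ E‖ :=
              ContinuousLinearMap.opNorm_comp_le _ _
          _ ≤ C * (R⁻¹ * 1) := by
              apply mul_le_mul (hC _) _ (norm_nonneg _) hC0
              rw [norm_smul, Real.norm_eq_abs, abs_of_pos (by positivity)]
              gcongr
              exact ContinuousLinearMap.norm_id_le
          _ = C * R⁻¹ := by ring
      have n2 : ‖χ (R⁻¹ • x) • (fderiv ℝ g x - ContinuousLinearMap.id ℝ E)‖ ≤ 1 * η := by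
        rw [norm_smul]
        apply mul_le_mul _ h1 (norm_nonneg _) (by norm_num)
        rw [Real.norm_eq_abs, abs_of_nonneg χ.nonneg]
        exact χ.le_one
      have n3 : ‖((fderiv ℝ χ (R⁻¹ • x)).comp (R⁻¹ • ContinuousLinearMap.id ℝ E)).smulRight (g x - x)‖
          ≤ (C * R⁻¹) * (η * R) := by
        rw [ContinuousLinearMap.norm_smulRight_apply]
        exact mul_le_mul n1 h2 (norm_nonneg _) (by positivity)
      calc _ ≤ 1 * η + (C * R⁻¹) * (η * R) := le_trans (norm_add_le _ _) (add_le_add n2 n3)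
        _ = (C + 1) * η := by field_simp; ring
        _ = 1 / 2 := by rw [hη]; field_simp
    · have : w =ᶠ[𝓝 x] fun _ => 0 := by
        have ho : IsOpen {y : E | 2 * R < ‖y‖} := isOpen_lt continuous_const continuous_norm
        filter_upwards [ho.mem_nhds hx] with y hy
        rw [hw]
        simp only [hzero y hy, zero_smul]
      rw [this.fderiv_eq]
      simp
  obtain ⟨G, hGd, hGx⟩ := exists_diffeo_of_small hr hwC hbound
  refine ⟨G, hGd, ?_, ?_⟩
  · intro x hx
    rw [hGx, hw]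
    simp only [hzero x hx, zero_smul, add_zero]
  · intro x hx
    rw [hGx, hw]
    simp only [hone x hx, one_smul]
    abel

end Pool.Agent.W_MP_cd67d3_gt
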