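import Mathlib

/-!
Definitions: the compact-open topology on the group of homeomorphisms, and diffeomorphisms.
-/

open scoped ContDiff Topology

namespace Pool.Agent.W_MP_cd67d3_gt

/-- A homeomorphism `h` of `X`, viewed as the pair of continuous maps `(h, h⁻¹)`. -/
def toPair {X : Type*} [TopologicalSpace X] (h : X ≃ₜ X) : C(X, X) × C(X, X) :=
  (⟨h, h.continuous⟩, ⟨h.symm, h.symm.continuous⟩)

/-- The compact-open topology on the group `Homeo(X)`: the topology induced by
`h ↦ (h, h⁻¹)` from the compact-open topologies. For `X = ℝⁿ`, `h_k → h` means that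
`h_k → h` and `h_k⁻¹ → h⁻¹` uniformly on compact sets. -/
@[instance_reducible] def homeoTopology (X : Type*) [TopologicalSpace X] : TopologicalSpace (X ≃ₜ X) :=
  TopologicalSpace.induced toPair inferInstance

/-- A `C^r` diffeomorphism: a homeomorphism which is `C^r` together with its inverse. -/
def IsDiffeo {E : Type*} [NormedAddCommGroup E] [NormedSpace ℝ E] (r : ℕ∞) (h : E ≃ₜ E) : Prop :=
  ContDiff ℝ r h ∧ ContDiff ℝ r h.symm

end Pool.Agent.W_MP_cd67d3_gt
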