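import Pool.Agent.W_MP_cd67d3_gt.Top

/-!
Encoding a sequence of compactly supported homeomorphisms in one homeomorphism.
-/

open scoped ContDiff Topology
open Filter

namespace Pool.Agent.W_MP_cd67d3_gt

variable {E : Type*} [NormedAddCommGroup E] [NormedSpace ℝ E]

/-- the centres of the balls -/
noncomputable def center (v : E) (k : ℕ) : E := (2 * (k : ℝ) ^ 2) • v

lemma sep {v : E} (hv : ‖v‖ = 1) {j k : ℕ} (hjk : j ≠ k) :
    2 * ((j : ℝ) + k) ≤ ‖center v j - center v k‖ := by
  unfold center
  rw [← sub_smul, norm_smul, hv, mul_one, Real.norm_eq_abs, ← mul_sub, abs_mul,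
    abs_of_pos (by norm_num : (0 : ℝ) < 2)]
  have h1 : (j : ℝ) ^ 2 - (k : ℝ) ^ 2 = (j - k) * (j + k) := by ring
  rw [h1, abs_mul, abs_of_nonneg (by positivity : (0 : ℝ) ≤ (j : ℝ) + k)]
  have h2 : (1 : ℝ) ≤ |(j : ℝ) - k| := by
    have : (1 : ℤ) ≤ |(j : ℤ) - k| := by
      apply Int.one_le_abs
      omega
    exact_mod_cast this
  have h3 : (0 : ℝ) ≤ (j : ℝ) + k := by positivity
  nlinarith

lemma exists_near {v : E} (hv : ‖v‖ = 1) (x : E) :
    ∃ k : ℕ, ∀ y, ‖y - x‖ < 1 / 2 → ∀ j : ℕ, j ≠ k → (j : ℝ) < ‖y - center v j‖ := by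
  by_cases H : ∃ k : ℕ, ∃ y, ‖y - x‖ < 1 / 2 ∧ ‖y - center v k‖ ≤ k
  · obtain ⟨k, z, hz1, hz2⟩ := H
    refine ⟨k, fun y hy j hj => ?_⟩
    by_contra hcon
    push Not at hcon
    have h1 := sep hv hj
    have h2 : ‖center v j - center v k‖ ≤ j + k + ‖y - z‖ := by
      calc ‖center v j - center v k‖ = ‖-(y - center v j) + (y - z) + (z - center v k)‖ := by
            congr 1; abel
        _ ≤ ‖-(y - center v j)‖ + ‖y - z‖ + ‖z - center v k‖ := norm_add₃_le
        _ ≤ j + ‖y - z‖ + k := by
            rw [norm_neg]; gcongr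
        _ = j + k + ‖y - z‖ := by ring
    have h3 : ‖y - z‖ < 1 := by
      calc ‖y - z‖ = ‖(y - x) - (z - x)‖ := by congr 1; abel
        _ ≤ ‖y - x‖ + ‖z - x‖ := norm_sub_le _ _
        _ < 1 := by linarith
    have h4 : (j : ℝ) + k < 1 := by linarith
    have h5 : j + k < 1 := by exact_mod_cast h4
    omega
  · push Not at H
    exact ⟨0, fun y hy j _ => H j y hy⟩

open Classical in
/-- The map equal to the translate of `e k` on the `k`-th ball, and to the identity elsewhere. -/
noncomputable def phiFun (v : E) (e : ℕ → E → E) (x : E) : E :=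
  if h : ∃ k : ℕ, ‖x - center v k‖ ≤ k then
    center v h.choose + e h.choose (x - center v h.choose) else x

lemma phiFun_eq {v : E} {e : ℕ → E → E} (he : ∀ (k : ℕ) (x : E), (k : ℝ) < ‖x‖ → e k x = x)
    {k : ℕ} {x : E} (hx : ∀ j : ℕ, j ≠ k → (j : ℝ) < ‖x - center v j‖) :
    phiFun v e x = center v k + e k (x - center v k) := by
  unfold phiFun
  split_ifs with h
  · have hk : h.choose = k := by
      by_contra hne
      have h1 := hx _ hne
      have h2 := h.choose_spec
      linarith
    rw [hk]
  · push Not at h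
    rw [he k _ (h k)]
    abel

/-- the conjugate of a map by a translation -/
def conjT (a : E) (g : E → E) (x : E) : E := a + g (x - a)

lemma phiFun_eventuallyEq {v : E} (hv : ‖v‖ = 1) {e : ℕ → E → E}
    (he : ∀ (k : ℕ) (x : E), (k : ℝ) < ‖x‖ → e k x = x) (x : E) :
    ∃ k : ℕ, phiFun v e =ᶠ[𝓝 x] conjT (center v k) (e k) := by
  obtain ⟨k, hk⟩ := exists_near hv x
  refine ⟨k, ?_⟩
  filter_upwards [Metric.ball_mem_nhds x (by norm_num : (0 : ℝ) < 1 / 2)] with y hy
  rw [mem_ball_iff_norm] at hy
  exact phiFun_eq he (hk y hy)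

lemma continuous_phiFun {v : E} (hv : ‖v‖ = 1) {e : ℕ → E → E}
    (he : ∀ (k : ℕ) (x : E), (k : ℝ) < ‖x‖ → e k x = x) (hc : ∀ k, Continuous (e k)) :
    Continuous (phiFun v e) := by
  rw [continuous_iff_continuousAt]
  intro x
  obtain ⟨k, hk⟩ := phiFun_eventuallyEq hv he x
  have : ContinuousAt (conjT (center v k) (e k)) x := by
    unfold conjT
    exact (continuous_const.add ((hc k).comp (continuous_id.sub continuous_const))).continuousAt
  exact this.congr hk.symm

lemma contDiff_phiFun {v : E} (hv : ‖v‖ = 1) {e : ℕ → E → E} {r : ℕ∞}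
    (he : ∀ (k : ℕ) (x : E), (k : ℝ) < ‖x‖ → e k x = x) (hc : ∀ k, ContDiff ℝ r (e k)) :
    ContDiff ℝ r (phiFun v e) := by
  rw [contDiff_iff_contDiffAt]
  intro x
  obtain ⟨k, hk⟩ := phiFun_eventuallyEq hv he x
  have : ContDiffAt ℝ r (conjT (center v k) (e k)) x := by
    unfold conjT
    exact (contDiff_const.add ((hc k).comp (contDiff_id.sub contDiff_const))).contDiffAt
  exact this.congr_of_eventuallyEq hk

lemma symm_supp {h : E ≃ₜ E} {R : ℝ} (hh : ∀ x, R < ‖x‖ → h x = x) :
    ∀ x, R < ‖x‖ → h.symm x = x := by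
  intro x hx
  rw [h.symm_apply_eq, hh x hx]

lemma norm_le_of_supp {h : E ≃ₜ E} {R : ℝ} (hh : ∀ x, R < ‖x‖ → h x = x) {x : E} (hx : ‖x‖ ≤ R) :
    ‖h x‖ ≤ R := by
  by_contra hcon
  push Not at hcon
  have h1 := hh _ hcon
  have h2 := h.injective h1
  rw [h2] at hcon
  linarith

lemma phiFun_left_inv {v : E} (hv : ‖v‖ = 1) (e : ℕ → (E ≃ₜ E))
    (he : ∀ (k : ℕ) (x : E), (k : ℝ) < ‖x‖ → e k x = x) (x : E) :
    phiFun v (fun k => (e k).symm) (phiFun v (fun k => e k) x) = x := by
  have he' : ∀ (k : ℕ) (x : E), (k : ℝ) < ‖x‖ → (e k).symm x = x := fun k => symm_supp (he k)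
  obtain ⟨k, hk⟩ := exists_near hv x
  have hx := hk x (by simp)
  rw [phiFun_eq (e := fun k => e k) he hx]
  have hy : ∀ j : ℕ, j ≠ k →
      (j : ℝ) < ‖(center v k + e k (x - center v k)) - center v j‖ := by
    intro j hj
    by_cases hxk : (k : ℝ) < ‖x - center v k‖
    · rw [he k _ hxk]
      have : center v k + (x - center v k) = x := by abel
      rw [this]
      exact hx j hj
    · push Not at hxk
      have h1 := norm_le_of_supp (he k) hxk
      by_contra hcon
      push Not at hcon
      have h2 := sep hv hj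
      have h3 : ‖center v j - center v k‖ ≤ j + k := by
        calc ‖center v j - center v k‖
            = ‖-((center v k + e k (x - center v k)) - center v j) + e k (x - center v k)‖ := by
              congr 1; abel
          _ ≤ ‖-((center v k + e k (x - center v k)) - center v j)‖ + ‖e k (x - center v k)‖ :=
              norm_add_le _ _
          _ ≤ j + k := by rw [norm_neg]; gcongr
      have h4 : (j : ℝ) + k ≤ 0 := by linarith
      have h5 : j + k ≤ 0 := by exact_mod_cast h4
      omega
  rw [phiFun_eq (e := fun k => (e k).symm) he' hy]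
  have : center v k + e k (x - center v k) - center v k = e k (x - center v k) := by abel
  rw [this, (e k).symm_apply_apply]
  abel

/-- The homeomorphism equal to the translate of `e k` on the `k`-th ball. -/
noncomputable def phi (v : E) (hv : ‖v‖ = 1) (e : ℕ → (E ≃ₜ E))
    (he : ∀ (k : ℕ) (x : E), (k : ℝ) < ‖x‖ → e k x = x) : E ≃ₜ E where
  toFun := phiFun v (fun k => e k)
  invFun := phiFun v (fun k => (e k).symm)
  left_inv := phiFun_left_inv hv e he
  right_inv := phiFun_left_inv hv (fun k => (e k).symm) (fun k => symm_supp (he k))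
  continuous_toFun := continuous_phiFun hv he (fun k => (e k).continuous)
  continuous_invFun := continuous_phiFun hv (fun k => symm_supp (he k))
    (fun k => (e k).symm.continuous)

lemma isDiffeo_phi {v : E} (hv : ‖v‖ = 1) (e : ℕ → (E ≃ₜ E))
    (he : ∀ (k : ℕ) (x : E), (k : ℝ) < ‖x‖ → e k x = x) {r : ℕ∞} (hd : ∀ k, IsDiffeo r (e k)) :
    IsDiffeo r (phi v hv e he) :=
  ⟨contDiff_phiFun hv he (fun k => (hd k).1),
    contDiff_phiFun hv (fun k => symm_supp (he k)) (fun k => (hd k).2)⟩

lemma phi_far {v : E} (hv : ‖v‖ = 1) {R : ℝ} {k : ℕ} (hk : R < 2 * k) {x : E} (hx : ‖x‖ ≤ R) :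
    ∀ j : ℕ, j ≠ k → (j : ℝ) < ‖(center v k + x) - center v j‖ := by
  intro j hj
  have h1 := sep hv hj
  have h2 : ‖center v j - center v k‖ ≤ ‖(center v k + x) - center v j‖ + ‖x‖ := by
    calc ‖center v j - center v k‖ = ‖-((center v k + x) - center v j) + x‖ := by
          congr 1; abel
      _ ≤ ‖-((center v k + x) - center v j)‖ + ‖x‖ := norm_add_le _ _
      _ = _ := by rw [norm_neg]
  have : (0 : ℝ) ≤ j := Nat.cast_nonneg j
  linarith

/-- translation by `v` -/
def transl (v : E) : E ≃ₜ E := Homeomorph.addLeft v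

lemma transl_apply (v x : E) : transl v x = v + x := rfl
lemma transl_symm_apply (v x : E) : (transl v).symm x = x - v := by
  rw [(transl v).symm_apply_eq, transl_apply]; abel

lemma transl_pow (v : E) (m : ℕ) : transl v ^ m = transl ((m : ℝ) • v) := by
  induction m with
  | zero =>
    rw [pow_zero]
    ext x
    simp [transl_apply]
  | succ m ih =>
    rw [pow_succ, ih]
    ext x
    rw [Homeomorph.mul_apply, transl_apply, transl_apply, transl_apply]
    push_cast
    rw [add_smul, one_smul]
    abel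

lemma conj_phi {v : E} (hv : ‖v‖ = 1) (e : ℕ → (E ≃ₜ E))
    (he : ∀ (k : ℕ) (x : E), (k : ℝ) < ‖x‖ → e k x = x) {R : ℝ} {k : ℕ} (hk : R < 2 * k)
    {x : E} (hx : ‖x‖ ≤ R) :
    ((transl v ^ (2 * k ^ 2))⁻¹ * phi v hv e he * transl v ^ (2 * k ^ 2)) x = e k x ∧
    ((transl v ^ (2 * k ^ 2))⁻¹ * phi v hv e he * transl v ^ (2 * k ^ 2)).symm x =
      (e k).symm x := by
  have hc : transl v ^ (2 * k ^ 2) = transl (center v k) := by
    rw [transl_pow]
    unfold center
    push_cast
    rfl
  have hfar := phi_far hv hk hx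
  rw [hc]
  constructor
  · rw [Homeomorph.mul_apply, Homeomorph.mul_apply, Homeomorph.inv_apply, transl_apply,
      transl_symm_apply]
    change phiFun v (fun k => e k) (center v k + x) - center v k = _
    rw [phiFun_eq (e := fun k => e k) he hfar]
    have : center v k + x - center v k = x := by abel
    rw [this]
    abel
  · have e1 : ((transl (center v k))⁻¹ * phi v hv e he * transl (center v k)).symm =
        (transl (center v k))⁻¹ * (phi v hv e he)⁻¹ * transl (center v k) := by
      change ((transl (center v k))⁻¹ * phi v hv e he * transl (center v k))⁻¹ = _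
      group
    rw [e1, Homeomorph.mul_apply, Homeomorph.mul_apply, Homeomorph.inv_apply,
      Homeomorph.inv_apply, transl_apply, transl_symm_apply]
    change phiFun v (fun k => (e k).symm) (center v k + x) - center v k = _
    rw [phiFun_eq (e := fun k => (e k).symm) (fun k => symm_supp (he k)) hfar]
    have : center v k + x - center v k = x := by abel
    rw [this]
    abel

attribute [local instance] homeoTopology

open Classical in
/-- the sequence to be encoded -/
noncomputable def encSeq (s : ℕ → (E ≃ₜ E)) (k : ℕ) : E ≃ₜ E :=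
  if ∀ x : E, (k : ℝ) < ‖x‖ → s (Nat.unpair k).1 x = x then s (Nat.unpair k).1 else 1

lemma encSeq_supp (s : ℕ → (E ≃ₜ E)) (k : ℕ) (x : E) (hx : (k : ℝ) < ‖x‖) : encSeq s k x = x := by
  unfold encSeq
  split_ifs with h
  · exact h x hx
  · rfl

/-- **Encoding theorem.** For every set `D` of compactly supported homeomorphisms there is one
homeomorphism `Φ` (which is a `C^r` diffeomorphism if all elements of `D` are) such that `D` lies in
the closure of the group generated by `Φ` and a translation. -/
theorem encode [FiniteDimensional ℝ E] {v : E} (hv : ‖v‖ = 1) (D : Set (E ≃ₜ E))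
    (hD : ∀ h ∈ D, ∃ R : ℝ, ∀ x, R < ‖x‖ → h x = x) :
    ∃ Φ : E ≃ₜ E, (∀ r : ℕ∞, (∀ h ∈ D, IsDiffeo r h) → IsDiffeo r Φ) ∧
      D ⊆ closure (Subgroup.closure {transl v, Φ} : Set (E ≃ₜ E)) := by
  have : ProperSpace E := FiniteDimensional.proper ℝ E
  obtain ⟨S, hSD, hSc, hDS⟩ := exists_countable_dense_subset D
  rcases S.eq_empty_or_nonempty with hS | hS
  · refine ⟨1, fun r _ => ⟨contDiff_id, contDiff_id⟩, ?_⟩
    rw [hS, closure_empty] at hDS
    intro h hh
    exact absurd (hDS hh) (Set.notMem_empty _)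
  obtain ⟨s, hs⟩ := hSc.exists_eq_range hS
  have hsD : ∀ i, s i ∈ D := fun i => hSD (hs ▸ Set.mem_range_self i)
  refine ⟨phi v hv (encSeq s) (encSeq_supp s), ?_, ?_⟩
  · intro r hr
    apply isDiffeo_phi
    intro k
    unfold encSeq
    split_ifs
    · exact hr _ (hsD _)
    · exact ⟨contDiff_id, contDiff_id⟩
  · set G : Set (E ≃ₜ E) :=
      (Subgroup.closure {transl v, phi v hv (encSeq s) (encSeq_supp s)} : Set (E ≃ₜ E)) with hG
    have h1 : S ⊆ closure G := by
      rw [hs]
      rintro _ ⟨i, rfl⟩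
      apply mem_closure_of_agree
      intro R
      obtain ⟨Ri, hRi⟩ := hD _ (hsD i)
      obtain ⟨j, hj⟩ := exists_nat_ge (max R (max Ri 1))
      set k := Nat.pair i j with hk
      have hjk : (j : ℝ) ≤ k := by exact_mod_cast Nat.right_le_pair i j
      have hek : encSeq s k = s i := by
        unfold encSeq
        rw [hk, Nat.unpair_pair]
        rw [if_pos]
        intro x hx
        apply hRi
        have : Ri ≤ j := le_trans (le_trans (le_max_left _ _) (le_max_right _ _)) hj
        linarith
      have hRk : R < 2 * k := by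
        have h1 : R ≤ j := le_trans (le_max_left _ _) hj
        have h2 : (1 : ℝ) ≤ j := le_trans (le_trans (le_max_right _ _) (le_max_right _ _)) hj
        linarith
      refine ⟨(transl v ^ (2 * k ^ 2))⁻¹ * phi v hv (encSeq s) (encSeq_supp s)
        * transl v ^ (2 * k ^ 2), ?_, ?_⟩
      · have m1 : transl v ∈ Subgroup.closure {transl v, phi v hv (encSeq s) (encSeq_supp s)} :=
          Subgroup.subset_closure (by simp)
        have m2 : phi v hv (encSeq s) (encSeq_supp s) ∈
            Subgroup.closure {transl v, phi v hv (encSeq s) (encSeq_supp s)} :=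
          Subgroup.subset_closure (by simp)
        exact mul_mem (mul_mem (inv_mem (pow_mem m1 _)) m2) (pow_mem m1 _)
      · intro x hx
        have := conj_phi hv (encSeq s) (encSeq_supp s) hRk hx
        rw [hek] at this
        exact this
    calc D ⊆ closure S := hDS
      _ ⊆ closure (closure G) := closure_mono h1
      _ = closure G := closure_closure

end Pool.Agent.W_MP_cd67d3_gt
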