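import Pool.Agent.W_MP_cd67d3_gt.Cutoff

/-!
Linear maps and translations are limits of compactly supported diffeomorphisms and reflections.
-/

open scoped ContDiff Topology NNReal
open Filter

namespace Pool.Agent.W_MP_cd67d3_gt

attribute [local instance] homeoTopology

/-- compactly supported `C^r` diffeomorphisms -/
def compDiffeo (E : Type*) [NormedAddCommGroup E] [NormedSpace ℝ E] (r : ℕ∞) : Set (E ≃ₜ E) :=
  {h | IsDiffeo r h ∧ ∃ R : ℝ, ∀ x, R < ‖x‖ → h x = x}

section general

variable {E : Type*} [NormedAddCommGroup E] [NormedSpace ℝ E] [FiniteDimensional ℝ E]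

lemma transl_mem {r : ℕ∞} (hr : 1 ≤ r) {H : Subgroup (E ≃ₜ E)}
    (hcl : IsClosed (H : Set (E ≃ₜ E))) (hD : compDiffeo E r ⊆ H) (v : E) : transl v ∈ H := by
  have : ProperSpace E := FiniteDimensional.proper ℝ E
  obtain ⟨η, hη, hcut⟩ := cutoff E
  change transl v ∈ (H : Set (E ≃ₜ E))
  rw [← hcl.closure_eq]
  apply mem_closure_of_agree'
  intro R
  set R' : ℝ := max R 1 + ‖v‖ / η with hR'
  have h1 : 0 ≤ ‖v‖ / η := by positivity
  have hR'1 : 1 ≤ R' := by
    have := le_max_right R 1
    linarith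
  obtain ⟨G, hG1, hG2, hG3⟩ := hcut r hr R' (by linarith) (fun x => v + x)
    (contDiff_const.add contDiff_id) (by
      intro x _
      constructor
      · have : fderiv ℝ (fun x : E => v + x) x = ContinuousLinearMap.id ℝ E :=
          ((hasFDerivAt_id x).const_add v).fderiv
        rw [this, sub_self, norm_zero]
        exact hη.le
      · have : v + x - x = v := by abel
        rw [this]
        have h2 : ‖v‖ = η * (‖v‖ / η) := by field_simp
        have h3 : 0 ≤ max R 1 := le_trans zero_le_one (le_max_right R 1)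
        rw [hR']
        nlinarith)
  refine ⟨G, hD ⟨hG1, _, hG2⟩, fun x hx => ?_⟩
  rw [hG3 x, transl_apply]
  have := le_max_left R 1
  linarith

lemma near_id_mem (E : Type*) [NormedAddCommGroup E] [NormedSpace ℝ E] [FiniteDimensional ℝ E] :
    ∃ η : ℝ, 0 < η ∧ ∀ (r : ℕ∞), 1 ≤ r → ∀ (H : Subgroup (E ≃ₜ E)),
    IsClosed (H : Set (E ≃ₜ E)) → compDiffeo E r ⊆ H → ∀ (h : E ≃ₜ E) (L : E →L[ℝ] E),
    (∀ x, h x = x + L x) → ‖L‖ ≤ η → h ∈ H := by
  have : ProperSpace E := FiniteDimensional.proper ℝ E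
  obtain ⟨η, hη, hcut⟩ := cutoff E
  refine ⟨η / 2, by positivity, ?_⟩
  intro r hr H hcl hD h L hL hLn
  change h ∈ (H : Set (E ≃ₜ E))
  rw [← hcl.closure_eq]
  apply mem_closure_of_agree'
  intro R
  set R' : ℝ := max R 1 with hR'
  have hR'1 : 1 ≤ R' := le_max_right R 1
  obtain ⟨G, hG1, hG2, hG3⟩ := hcut r hr R' (by linarith) (fun x => x + L x)
    (contDiff_id.add L.contDiff) (by
      intro x hx
      constructor
      · have : fderiv ℝ (fun x : E => x + L x) x = ContinuousLinearMap.id ℝ E + L :=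
          ((hasFDerivAt_id x).add L.hasFDerivAt).fderiv
        rw [this, add_sub_cancel_left]
        linarith
      · have : x + L x - x = L x := by abel
        rw [this]
        calc ‖L x‖ ≤ ‖L‖ * ‖x‖ := L.le_opNorm x
          _ ≤ (η / 2) * (2 * R') := by gcongr
          _ = η * R' := by ring)
  refine ⟨G, hD ⟨hG1, _, hG2⟩, fun x hx => ?_⟩
  rw [hG3 x (le_trans hx (le_max_left _ _)), hL]

end general

section euclidean

variable {n : ℕ}

/-- Euclidean space -/
abbrev Eu (n : ℕ) := EuclideanSpace ℝ (Fin n)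

/-- the linear map `x ↦ (c x_j) e_i` -/
noncomputable def elem (i j : Fin n) (c : ℝ) : Eu n →L[ℝ] Eu n :=
  (c • (EuclideanSpace.proj j : Eu n →L[ℝ] ℝ)).smulRight (EuclideanSpace.single i 1)

lemma elem_apply (i j : Fin n) (c : ℝ) (x : Eu n) :
    elem i j c x = (c * x j) • EuclideanSpace.single i (1 : ℝ) := by
  simp [elem]

lemma elem_apply_apply (i j : Fin n) (c : ℝ) (x : Eu n) (k : Fin n) :
    (elem i j c x) k = if k = i then c * x j else 0 := by
  rw [elem_apply]
  simp [PiLp.single_apply]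

lemma abs_coord_le' (x : Eu n) (i : Fin n) : |x i| ≤ ‖x‖ := by
  have := EuclideanSpace.norm_eq x
  rw [this, ← Real.sqrt_sq_eq_abs]
  apply Real.sqrt_le_sqrt
  have h : ‖x i‖ ^ 2 = x i ^ 2 := by rw [Real.norm_eq_abs, sq_abs]
  rw [← h]
  exact Finset.single_le_sum (f := fun i => ‖x i‖ ^ 2) (fun j _ => sq_nonneg _) (Finset.mem_univ i)

lemma norm_elem_le (i j : Fin n) (c : ℝ) : ‖elem i j c‖ ≤ |c| := by
  apply ContinuousLinearMap.opNorm_le_bound _ (abs_nonneg c)
  intro x
  rw [elem_apply, norm_smul, PiLp.norm_single, norm_one, mul_one, Real.norm_eq_abs, abs_mul]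
  exact mul_le_mul_of_nonneg_left (abs_coord_le' x j) (abs_nonneg c)

/-- transvections -/
noncomputable def shear (i j : Fin n) (hij : i ≠ j) (c : ℝ) : Eu n ≃ₜ Eu n where
  toFun x := x + elem i j c x
  invFun x := x + elem i j (-c) x
  left_inv x := by
    ext k
    simp only [PiLp.add_apply, elem_apply_apply]
    by_cases h : k = i
    · simp [h, hij.symm]
    · simp [h]
  right_inv x := by
    ext k
    simp only [PiLp.add_apply, elem_apply_apply]
    by_cases h : k = i
    · simp [h, hij.symm]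
    · simp [h]
  continuous_toFun := continuous_id.add (elem i j c).continuous
  continuous_invFun := continuous_id.add (elem i j (-c)).continuous

lemma shear_apply (i j : Fin n) (hij : i ≠ j) (c : ℝ) (x : Eu n) :
    shear i j hij c x = x + elem i j c x := rfl

lemma shear_apply_apply (i j : Fin n) (hij : i ≠ j) (c : ℝ) (x : Eu n) (k : Fin n) :
    (shear i j hij c x) k = x k + if k = i then c * x j else 0 := by
  rw [shear_apply, PiLp.add_apply, elem_apply_apply]

lemma shear_pow (i j : Fin n) (hij : i ≠ j) (c : ℝ) (m : ℕ) :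
    shear i j hij c ^ m = shear i j hij (m * c) := by
  induction m with
  | zero =>
    rw [pow_zero]
    ext x k
    rw [shear_apply_apply, Homeomorph.one_apply]
    simp
  | succ m ih =>
    rw [pow_succ, ih]
    ext x k
    rw [Homeomorph.mul_apply, shear_apply_apply, shear_apply_apply, shear_apply_apply,
      shear_apply_apply]
    by_cases h : k = i
    · simp [h, hij.symm]; ring
    · simp [h]

/-- scaling of one coordinate -/
noncomputable def scale (i : Fin n) (d : ℝ) (hd : d ≠ 0) : Eu n ≃ₜ Eu n where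
  toFun x := x + elem i i (d - 1) x
  invFun x := x + elem i i (d⁻¹ - 1) x
  left_inv x := by
    ext k
    simp only [PiLp.add_apply, elem_apply_apply]
    by_cases h : k = i
    · simp [h]; field_simp; ring
    · simp [h]
  right_inv x := by
    ext k
    simp only [PiLp.add_apply, elem_apply_apply]
    by_cases h : k = i
    · simp [h]; field_simp; ring
    · simp [h]
  continuous_toFun := continuous_id.add (elem i i (d - 1)).continuous
  continuous_invFun := continuous_id.add (elem i i (d⁻¹ - 1)).continuous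

lemma scale_apply (i : Fin n) (d : ℝ) (hd : d ≠ 0) (x : Eu n) :
    scale i d hd x = x + elem i i (d - 1) x := rfl

lemma scale_apply_apply (i : Fin n) (d : ℝ) (hd : d ≠ 0) (x : Eu n) (k : Fin n) :
    (scale i d hd x) k = if k = i then d * x i else x k := by
  rw [scale_apply, PiLp.add_apply, elem_apply_apply]
  by_cases h : k = i
  · simp [h]; ring
  · simp [h]

lemma scale_mul (i : Fin n) (d d' : ℝ) (hd : d ≠ 0) (hd' : d' ≠ 0) :
    scale i d hd * scale i d' hd' = scale i (d * d') (mul_ne_zero hd hd') := by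
  ext x k
  rw [Homeomorph.mul_apply, scale_apply_apply, scale_apply_apply, scale_apply_apply,
    scale_apply_apply]
  by_cases h : k = i
  · simp [h]; ring
  · simp [h]

lemma scale_pow (i : Fin n) (d : ℝ) (hd : d ≠ 0) (m : ℕ) :
    scale i d hd ^ m = scale i (d ^ m) (pow_ne_zero m hd) := by
  induction m with
  | zero =>
    rw [pow_zero]
    ext x k
    rw [scale_apply_apply, Homeomorph.one_apply]
    by_cases h : k = i <;> simp [h]
  | succ m ih =>
    rw [pow_succ, ih, scale_mul]
    congr 1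

lemma shear_mem {r : ℕ∞} (hr : 1 ≤ r) {H : Subgroup (Eu n ≃ₜ Eu n)}
    (hcl : IsClosed (H : Set (Eu n ≃ₜ Eu n))) (hD : compDiffeo (Eu n) r ⊆ H) (i j : Fin n)
    (hij : i ≠ j) (c : ℝ) : shear i j hij c ∈ H := by
  obtain ⟨η, hη, hnear⟩ := near_id_mem (Eu n)
  obtain ⟨m, hm⟩ := exists_nat_gt (|c| / η)
  have hm0 : (0 : ℝ) < m := lt_of_le_of_lt (by positivity) hm
  have e : shear i j hij c = shear i j hij (c / m) ^ m := by
    rw [shear_pow]
    congr 1
    field_simp
  rw [e]
  apply pow_mem
  apply hnear r hr H hcl hD _ (elem i j (c / m)) (fun x => rfl)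
  refine le_trans (norm_elem_le _ _ _) ?_
  rw [abs_div, abs_of_pos hm0, div_le_iff₀ hm0]
  rw [div_lt_iff₀ hη] at hm
  linarith

lemma scale_pos_mem {r : ℕ∞} (hr : 1 ≤ r) {H : Subgroup (Eu n ≃ₜ Eu n)}
    (hcl : IsClosed (H : Set (Eu n ≃ₜ Eu n))) (hD : compDiffeo (Eu n) r ⊆ H) (i : Fin n)
    (d : ℝ) (hd : 0 < d) : scale i d hd.ne' ∈ H := by
  obtain ⟨η, hη, hnear⟩ := near_id_mem (Eu n)
  have hlim : Tendsto (fun m : ℕ => Real.exp (Real.log d / m) - 1) atTop (𝓝 0) := by
    have h1 : Tendsto (fun m : ℕ => Real.log d / (m : ℝ)) atTop (𝓝 0) :=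
      tendsto_const_div_atTop_nhds_zero_nat _
    have h2 : Tendsto (fun m : ℕ => Real.exp (Real.log d / m)) atTop (𝓝 (Real.exp 0)) :=
      (Real.continuous_exp.tendsto 0).comp h1
    rw [Real.exp_zero] at h2
    simpa using h2.sub_const 1
  have h3 : ∀ᶠ m : ℕ in atTop, |Real.exp (Real.log d / m) - 1| < η := by
    have := hlim.abs
    rw [abs_zero] at this
    exact this.eventually (gt_mem_nhds hη)
  obtain ⟨m, hm1, hm2⟩ := (h3.and (eventually_ge_atTop 1)).exists
  have hm0 : (m : ℝ) ≠ 0 := by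
    have : (1 : ℝ) ≤ m := by exact_mod_cast hm2
    linarith
  have e : scale i d hd.ne' = scale i (Real.exp (Real.log d / m)) (Real.exp_pos _).ne' ^ m := by
    rw [scale_pow]
    congr 1
    rw [← Real.exp_nat_mul, mul_div_cancel₀ _ hm0, Real.exp_log hd]
  rw [e]
  apply pow_mem
  apply hnear r hr H hcl hD _ (elem i i (Real.exp (Real.log d / m) - 1)) (fun x => rfl)
  exact le_trans (norm_elem_le _ _ _) hm1.le

lemma refl_conj (i j : Fin n) (hij : i ≠ j) :
    (shear i j hij 1 * shear j i hij.symm (-1) * shear i j hij 1) * scale i (-1) (by norm_num) =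
    scale j (-1) (by norm_num) * (shear i j hij 1 * shear j i hij.symm (-1) * shear i j hij 1) := by
  ext x k
  simp only [Homeomorph.mul_apply, scale_apply_apply, shear_apply_apply]
  by_cases h1 : k = i
  · subst h1
    simp [hij, hij.symm]
  · by_cases h2 : k = j
    · subst h2
      simp [hij.symm]
    · simp [h1, h2]

lemma scale_mem {r : ℕ∞} (hr : 1 ≤ r) {H : Subgroup (Eu n ≃ₜ Eu n)}
    (hcl : IsClosed (H : Set (Eu n ≃ₜ Eu n))) (hD : compDiffeo (Eu n) r ⊆ H)
    {i₀ : Fin n} (hrefl : scale i₀ (-1) (by norm_num) ∈ H) (i : Fin n)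
    (d : ℝ) (hd : d ≠ 0) : scale i d hd ∈ H := by
  have hneg : scale i (-1) (by norm_num) ∈ H := by
    by_cases h : i = i₀
    · rw [h]; exact hrefl
    · have hne : i₀ ≠ i := fun h' => h h'.symm
      set Q := shear i₀ i hne 1 * shear i i₀ hne.symm (-1) * shear i₀ i hne 1 with hQ
      have hQm : Q ∈ H := mul_mem (mul_mem (shear_mem hr hcl hD _ _ _ _)
        (shear_mem hr hcl hD _ _ _ _)) (shear_mem hr hcl hD _ _ _ _)
      have e : scale i (-1) (by norm_num) = Q * scale i₀ (-1) (by norm_num) * Q⁻¹ := by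
        have h2 := refl_conj i₀ i hne
        rw [← hQ] at h2
        rw [h2, mul_assoc, mul_inv_cancel, mul_one]
      rw [e]
      exact mul_mem (mul_mem hQm hrefl) (inv_mem hQm)
  rcases lt_or_gt_of_ne hd with h | h
  · have h' : 0 < -d := by linarith
    have e : scale i d hd = scale i (-1) (by norm_num) * scale i (-d) h'.ne' := by
      rw [scale_mul]
      congr 1
      ring
    rw [e]
    exact mul_mem hneg (scale_pos_mem hr hcl hD i (-d) h')
  · exact scale_pos_mem hr hcl hD i d h

/-- the homeomorphism given by an invertible matrix -/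
noncomputable def matHomeo (M : Matrix (Fin n) (Fin n) ℝ) (hM : M.det ≠ 0) : Eu n ≃ₜ Eu n where
  toFun x := WithLp.toLp 2 (M.mulVec x.ofLp)
  invFun x := WithLp.toLp 2 (M⁻¹.mulVec x.ofLp)
  left_inv x := by
    have h : M⁻¹ * M = 1 := Matrix.nonsing_inv_mul M (isUnit_iff_ne_zero.2 hM)
    simp [Matrix.mulVec_mulVec, h]
  right_inv x := by
    have h : M * M⁻¹ = 1 := Matrix.mul_nonsing_inv M (isUnit_iff_ne_zero.2 hM)
    simp [Matrix.mulVec_mulVec, h]
  continuous_toFun := by fun_prop
  continuous_invFun := by fun_prop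

lemma matHomeo_apply (M : Matrix (Fin n) (Fin n) ℝ) (hM : M.det ≠ 0) (x : Eu n) (k : Fin n) :
    (matHomeo M hM x) k = ∑ j, M k j * x j := rfl

lemma diag_mem {r : ℕ∞} (hr : 1 ≤ r) {H : Subgroup (Eu n ≃ₜ Eu n)}
    (hcl : IsClosed (H : Set (Eu n ≃ₜ Eu n))) (hD : compDiffeo (Eu n) r ⊆ H)
    {i₀ : Fin n} (hrefl : scale i₀ (-1) (by norm_num) ∈ H) (s : Finset (Fin n)) :
    ∀ (d : Fin n → ℝ), (∀ i, d i ≠ 0) → ∀ h : Eu n ≃ₜ Eu n,
      (∀ x k, (h x) k = if k ∈ s then d k * x k else x k) → h ∈ H := by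
  induction s using Finset.induction with
  | empty =>
    intro d hd h hh
    have : h = 1 := by
      ext x k
      rw [hh]; simp
    rw [this]
    exact one_mem _
  | insert a s ha ih =>
    intro d hd h hh
    have e : h = scale a (d a) (hd a) * ((scale a (d a) (hd a))⁻¹ * h) := by group
    rw [e]
    refine mul_mem (scale_mem hr hcl hD hrefl a _ _) (ih d hd _ ?_)
    intro x k
    set y := ((scale a (d a) (hd a))⁻¹ * h) x with hy
    have h1 : scale a (d a) (hd a) y = h x := by
      rw [hy, ← Homeomorph.mul_apply]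
      congr 1
      group
    have h2 := congrArg (fun z : Eu n => z k) h1
    simp only [scale_apply_apply, hh] at h2
    by_cases hk : k = a
    · subst hk
      simp only [if_true, Finset.mem_insert, true_or] at h2
      rw [if_neg ha]
      exact mul_left_cancel₀ (hd k) h2
    · simp only [hk, if_false, Finset.mem_insert, false_or] at h2
      exact h2

lemma matrix_mem {r : ℕ∞} (hr : 1 ≤ r) {H : Subgroup (Eu n ≃ₜ Eu n)}
    (hcl : IsClosed (H : Set (Eu n ≃ₜ Eu n))) (hD : compDiffeo (Eu n) r ⊆ H)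
    {i₀ : Fin n} (hrefl : scale i₀ (-1) (by norm_num) ∈ H)
    (M : Matrix (Fin n) (Fin n) ℝ) (hM : M.det ≠ 0) :
    ∀ h : Eu n ≃ₜ Eu n, (∀ x k, (h x) k = ∑ j, M k j * x j) → h ∈ H := by
  apply Matrix.diagonal_transvection_induction_of_det_ne_zero
    (P := fun M => ∀ h : Eu n ≃ₜ Eu n, (∀ x k, (h x) k = ∑ j, M k j * x j) → h ∈ H) M hM
  · intro D hDdet h hh
    have hD0 : ∀ i, D i ≠ 0 := by
      intro i hi
      apply hDdet
      rw [Matrix.det_diagonal]
      exact Finset.prod_eq_zero (Finset.mem_univ i) hi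
    apply diag_mem hr hcl hD hrefl Finset.univ D hD0
    intro x k
    rw [hh]
    simp [Matrix.diagonal_apply]
  · intro t h hh
    have : h = shear t.i t.j t.hij t.c := by
      ext x k
      rw [hh, shear_apply_apply]
      simp only [Matrix.TransvectionStruct.toMatrix, Matrix.transvection, Matrix.add_apply,
        add_mul, Finset.sum_add_distrib, Matrix.one_apply, Matrix.single_apply]
      congr 1
      · simp
      · by_cases hk : k = t.i
        · subst hk
          simp
        · have hk' : ¬ t.i = k := fun h' => hk h'.symm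
          simp [hk, hk']
    rw [this]
    exact shear_mem hr hcl hD _ _ _ _
  · intro A B hA hB PA PB h hh
    have e : h = matHomeo A hA * matHomeo B hB := by
      ext x k
      rw [hh, Homeomorph.mul_apply, matHomeo_apply]
      simp only [matHomeo_apply, Matrix.mul_apply, Finset.sum_mul, Finset.mul_sum]
      rw [Finset.sum_comm]
      apply Finset.sum_congr rfl
      intro i _
      apply Finset.sum_congr rfl
      intro j _
      ring
    rw [e]
    exact mul_mem (PA _ (fun x k => rfl)) (PB _ (fun x k => rfl))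

/-- All linear automorphisms lie in `H`. -/
lemma linear_mem {r : ℕ∞} (hr : 1 ≤ r) {H : Subgroup (Eu n ≃ₜ Eu n)}
    (hcl : IsClosed (H : Set (Eu n ≃ₜ Eu n))) (hD : compDiffeo (Eu n) r ⊆ H)
    {i₀ : Fin n} (hrefl : scale i₀ (-1) (by norm_num) ∈ H)
    (L : Eu n ≃L[ℝ] Eu n) : L.toHomeomorph ∈ H := by
  set b := (EuclideanSpace.basisFun (Fin n) ℝ).toBasis with hb
  set M : Matrix (Fin n) (Fin n) ℝ := LinearMap.toMatrix b b (L.toLinearEquiv : Eu n →ₗ[ℝ] Eu n)
    with hMdef
  have hM : M.det ≠ 0 := by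
    have := (LinearEquiv.isUnit_det L.toLinearEquiv b b)
    exact this.ne_zero
  apply matrix_mem hr hcl hD hrefl M hM
  intro x k
  have h1 := LinearMap.toMatrix_mulVec_repr b b (L.toLinearEquiv : Eu n →ₗ[ℝ] Eu n) x
  have h2 := congrFun h1 k
  exact h2.symm

end euclidean

end Pool.Agent.W_MP_cd67d3_gt
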