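import Pool.Agent.W_MP_cd67d3_gt.Linear

/-!
A closed subgroup containing the compactly supported diffeomorphisms and a reflection contains
all diffeomorphisms.
-/

open scoped ContDiff Topology NNReal
open Filter

namespace Pool.Agent.W_MP_cd67d3_gt

attribute [local instance] homeoTopology

section general

variable {E : Type*} [NormedAddCommGroup E] [NormedSpace ℝ E]

lemma IsDiffeo.mul {r : ℕ∞} {g h : E ≃ₜ E} (hg : IsDiffeo r g) (hh : IsDiffeo r h) :
    IsDiffeo r (g * h) :=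
  ⟨hg.1.comp hh.1, hh.2.comp hg.2⟩

lemma IsDiffeo.inv {r : ℕ∞} {g : E ≃ₜ E} (hg : IsDiffeo r g) : IsDiffeo r g⁻¹ := ⟨hg.2, hg.1⟩

lemma isDiffeo_one (r : ℕ∞) : IsDiffeo r (1 : E ≃ₜ E) := ⟨contDiff_id, contDiff_id⟩

lemma isDiffeo_transl (r : ℕ∞) (v : E) : IsDiffeo r (transl v) := by
  refine ⟨contDiff_const.add contDiff_id, ?_⟩
  have : ((transl v).symm : E → E) = fun x => x - v := funext (transl_symm_apply v)
  rw [this]
  exact contDiff_id.sub contDiff_const

lemma isDiffeo_linear (r : ℕ∞) (L : E ≃L[ℝ] E) : IsDiffeo r L.toHomeomorph :=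
  ⟨L.contDiff, L.symm.contDiff⟩

lemma compDiffeo_one (r : ℕ∞) : (1 : E ≃ₜ E) ∈ compDiffeo E r :=
  ⟨isDiffeo_one r, 0, fun _ _ => rfl⟩

lemma compDiffeo_mul {r : ℕ∞} {g h : E ≃ₜ E} (hg : g ∈ compDiffeo E r) (hh : h ∈ compDiffeo E r) :
    g * h ∈ compDiffeo E r := by
  obtain ⟨hg1, R1, hg2⟩ := hg
  obtain ⟨hh1, R2, hh2⟩ := hh
  refine ⟨hg1.mul hh1, max R1 R2, fun x hx => ?_⟩
  rw [Homeomorph.mul_apply, hh2 x (lt_of_le_of_lt (le_max_right _ _) hx),
    hg2 x (lt_of_le_of_lt (le_max_left _ _) hx)]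

lemma compDiffeo_inv {r : ℕ∞} {g : E ≃ₜ E} (hg : g ∈ compDiffeo E r) : g⁻¹ ∈ compDiffeo E r := by
  obtain ⟨hg1, R1, hg2⟩ := hg
  exact ⟨hg1.inv, R1, symm_supp hg2⟩

lemma compDiffeo_pow {r : ℕ∞} {g : E ≃ₜ E} (hg : g ∈ compDiffeo E r) (m : ℕ) :
    g ^ m ∈ compDiffeo E r := by
  induction m with
  | zero => rw [pow_zero]; exact compDiffeo_one r
  | succ m ih => rw [pow_succ]; exact compDiffeo_mul ih hg

lemma compDiffeo_conj [ProperSpace E] {r : ℕ∞} {c h : E ≃ₜ E} (hc : c ∈ compDiffeo E r)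
    (hh : IsDiffeo r h) : h * c * h⁻¹ ∈ compDiffeo E r := by
  obtain ⟨hc1, R1, hc2⟩ := hc
  refine ⟨(hh.mul hc1).mul hh.inv, ?_⟩
  have hK : IsCompact (h '' (Metric.closedBall 0 R1)) :=
    (isCompact_closedBall 0 R1).image h.continuous
  obtain ⟨R2, hR2⟩ := hK.isBounded.exists_norm_le
  refine ⟨R2, fun x hx => ?_⟩
  have h1 : R1 < ‖h⁻¹ x‖ := by
    by_contra hcon
    push Not at hcon
    have h2 := hR2 (h (h⁻¹ x)) ⟨h⁻¹ x, mem_closedBall_zero_iff.2 hcon, rfl⟩
    rw [Homeomorph.inv_apply, h.apply_symm_apply] at h2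
    linarith
  rw [Homeomorph.mul_apply, Homeomorph.mul_apply, hc2 _ h1, Homeomorph.inv_apply,
    h.apply_symm_apply]

/-- compressing a large ball into a small one -/
lemma exists_compress [FiniteDimensional ℝ E] {r : ℕ∞} (hr : 1 ≤ r) (R s : ℝ) (hs : 0 < s) :
    ∃ c ∈ compDiffeo E r, ∀ x, ‖x‖ ≤ R → ‖c x‖ ≤ s := by
  obtain ⟨η, hη, hcut⟩ := cutoff E
  set R' : ℝ := max R 1 with hR'
  have hR'1 : 1 ≤ R' := le_max_right R 1
  set ε : ℝ := min (η / 2) (1 / 2) with hε
  have hε0 : 0 < ε := by positivity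
  have hε1 : ε ≤ η / 2 := min_le_left _ _
  have hε2 : ε ≤ 1 / 2 := min_le_right _ _
  obtain ⟨G, hG1, hG2, hG3⟩ := hcut r hr R' (by linarith) (fun x => (1 - ε) • x)
    (contDiff_const.smul contDiff_id) (by
      intro x hx
      constructor
      · have : fderiv ℝ (fun x : E => (1 - ε) • x) x = (1 - ε) • ContinuousLinearMap.id ℝ E :=
          ((hasFDerivAt_id x).const_smul (1 - ε)).fderiv
        rw [this]
        have e : (1 - ε) • ContinuousLinearMap.id ℝ E - ContinuousLinearMap.id ℝ E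
            = (-ε) • ContinuousLinearMap.id ℝ E := by
          module
        rw [e, norm_smul, Real.norm_eq_abs, abs_neg, abs_of_pos hε0]
        have := ContinuousLinearMap.norm_id_le (𝕜 := ℝ) (E := E)
        nlinarith [norm_nonneg (ContinuousLinearMap.id ℝ E)]
      · have e : (1 - ε) • x - x = (-ε) • x := by module
        rw [e, norm_smul, Real.norm_eq_abs, abs_neg, abs_of_pos hε0]
        calc ε * ‖x‖ ≤ (η / 2) * (2 * R') := by gcongr
          _ = η * R' := by ring)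
  have hGpow : ∀ (m : ℕ) (x : E), ‖x‖ ≤ R' → (G ^ m) x = (1 - ε) ^ m • x := by
    intro m
    induction m with
    | zero => intro x _; simp
    | succ m ih =>
      intro x hx
      rw [pow_succ', Homeomorph.mul_apply, ih x hx, hG3]
      · rw [smul_smul, pow_succ']
      · rw [norm_smul, norm_pow, Real.norm_eq_abs, abs_of_pos (by linarith)]
        have : (1 - ε) ^ m ≤ 1 := pow_le_one₀ (by linarith) (by linarith)
        nlinarith [norm_nonneg x]
  have hlim : Tendsto (fun m : ℕ => (1 - ε) ^ m * R') atTop (𝓝 (0 * R')) :=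
    (tendsto_pow_atTop_nhds_zero_of_lt_one (by linarith) (by linarith)).mul_const R'
  rw [zero_mul] at hlim
  obtain ⟨m, hm⟩ := (hlim.eventually (gt_mem_nhds hs)).exists
  refine ⟨G ^ m, compDiffeo_pow ⟨hG1, _, hG2⟩ m, fun x hx => ?_⟩
  have hx' : ‖x‖ ≤ R' := le_trans hx (le_max_left _ _)
  rw [hGpow m x hx', norm_smul, norm_pow, Real.norm_eq_abs, abs_of_pos (by linarith)]
  have h1 : 0 ≤ (1 - ε) ^ m := pow_nonneg (by linarith) m
  calc (1 - ε) ^ m * ‖x‖ ≤ (1 - ε) ^ m * R' := by gcongr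
    _ ≤ s := hm.le

/-- A diffeomorphism which is the identity near the origin lies in `H`. -/
lemma mem_of_eq_id_near [FiniteDimensional ℝ E] {r : ℕ∞} (hr : 1 ≤ r) {H : Subgroup (E ≃ₜ E)}
    (hcl : IsClosed (H : Set (E ≃ₜ E))) (hD : compDiffeo E r ⊆ H) {h : E ≃ₜ E}
    (hh : IsDiffeo r h) {s : ℝ} (hs : 0 < s) (hid : ∀ x, ‖x‖ ≤ s → h x = x) : h ∈ H := by
  have : ProperSpace E := FiniteDimensional.proper ℝ E
  change h ∈ (H : Set (E ≃ₜ E))
  rw [← hcl.closure_eq]
  apply mem_closure_of_agree'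
  intro R
  obtain ⟨c, hc, hcR⟩ := exists_compress (E := E) hr R s hs
  refine ⟨(h * c⁻¹ * h⁻¹) * c, mul_mem (hD (compDiffeo_conj (compDiffeo_inv hc) hh)) (hD hc), ?_⟩
  intro x hx
  have h1 := hid (c x) (hcR x hx)
  have h2 : h⁻¹ (c x) = c x := by
    rw [Homeomorph.inv_apply, h.symm_apply_eq, h1]
  rw [Homeomorph.mul_apply, Homeomorph.mul_apply, Homeomorph.mul_apply, h2,
    Homeomorph.inv_apply, c.symm_apply_apply]

/-- the homothety as a linear equivalence -/
noncomputable def homot (s : ℝ) (hs : s ≠ 0) : E ≃L[ℝ] E :=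
  ContinuousLinearEquiv.smulLeft (Units.mk0 s hs)

lemma homot_apply (s : ℝ) (hs : s ≠ 0) (x : E) : homot s hs x = s • x := rfl
lemma homot_symm_apply (s : ℝ) (hs : s ≠ 0) (x : E) : (homot s hs).symm x = s⁻¹ • x := rfl

/-- the derivative of a diffeomorphism at a point, as a linear equivalence -/
lemma exists_deriv_equiv {r : ℕ∞} (hr : 1 ≤ r) {f : E ≃ₜ E} (hf : IsDiffeo r f) (x : E) :
    ∃ L : E ≃L[ℝ] E, HasFDerivAt f (L : E →L[ℝ] E) x := by
  have hr1 : (1 : ℕ∞ω) ≤ (r : ℕ∞ω) := by exact_mod_cast hr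
  have hr0 : (r : ℕ∞ω) ≠ 0 := by
    intro h
    rw [h] at hr1
    exact absurd hr1 (by norm_num)
  have h1 : HasFDerivAt f (fderiv ℝ f x) x := (hf.1.differentiable hr0 x).hasFDerivAt
  have h2 : HasFDerivAt f.symm (fderiv ℝ f.symm (f x)) (f x) :=
    (hf.2.differentiable hr0 (f x)).hasFDerivAt
  have h3 : HasFDerivAt f (fderiv ℝ f x) (f.symm (f x)) := by
    rw [f.symm_apply_apply]; exact h1
  have e1 : (fderiv ℝ f.symm (f x)).comp (fderiv ℝ f x) = ContinuousLinearMap.id ℝ E := by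
    have h4 := h2.comp x h1
    have h5 : f.symm ∘ f = id := by
      funext y; simp
    rw [h5] at h4
    exact h4.unique (hasFDerivAt_id x)
  have e2 : (fderiv ℝ f x).comp (fderiv ℝ f.symm (f x)) = ContinuousLinearMap.id ℝ E := by
    have h4 := h3.comp (f x) h2
    have h5 : f ∘ f.symm = id := by
      funext y; simp
    rw [h5] at h4
    exact h4.unique (hasFDerivAt_id (f x))
  refine ⟨ContinuousLinearEquiv.equivOfInverse (fderiv ℝ f x) (fderiv ℝ f.symm (f x)) ?_ ?_, h1⟩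
  · intro y
    exact congrArg (fun A : E →L[ℝ] E => A y) e1
  · intro y
    exact congrArg (fun A : E →L[ℝ] E => A y) e2

/-- Near the origin, a diffeomorphism fixing the origin agrees with a composition of linear maps
and a compactly supported diffeomorphism. -/
lemma exists_local [FiniteDimensional ℝ E] {r : ℕ∞} (hr : 1 ≤ r) {f : E ≃ₜ E}
    (hf : IsDiffeo r f) (hf0 : f 0 = 0) :
    ∃ (L : E ≃L[ℝ] E) (s : ℝ) (hs : 0 < s) (G : E ≃ₜ E), G ∈ compDiffeo E r ∧
      ∀ y, ‖y‖ ≤ s → ((L.toHomeomorph * (homot s hs.ne').toHomeomorph * G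
        * (homot s hs.ne').toHomeomorph⁻¹ : E ≃ₜ E)) y = f y := by
  have hr1 : (1 : ℕ∞ω) ≤ (r : ℕ∞ω) := by exact_mod_cast hr
  have hr0 : (r : ℕ∞ω) ≠ 0 := by
    intro h
    rw [h] at hr1
    exact absurd hr1 (by norm_num)
  obtain ⟨η, hη, hcut⟩ := cutoff E
  obtain ⟨L, hL⟩ := exists_deriv_equiv hr hf 0
  set F : E → E := fun y => L.symm (f y) with hF
  have hFC : ContDiff ℝ r F := L.symm.contDiff.comp hf.1
  have hFd : Differentiable ℝ F := hFC.differentiable hr0
  have hF0 : fderiv ℝ F 0 = ContinuousLinearMap.id ℝ E := by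
    have h1 : HasFDerivAt F ((L.symm : E →L[ℝ] E).comp (L : E →L[ℝ] E)) 0 :=
      (L.symm : E →L[ℝ] E).hasFDerivAt.comp 0 hL
    rw [h1.fderiv]
    ext y
    simp
  have hcont : Continuous (fderiv ℝ F) := hFC.continuous_fderiv hr0
  have hη2 : 0 < η / 2 := by positivity
  obtain ⟨δ, hδ, hδF⟩ := Metric.continuousAt_iff.1 (hcont.continuousAt (x := 0)) (η / 2) hη2
  have hbound : ∀ y ∈ Metric.ball (0 : E) δ,
      ‖fderiv ℝ F y - ContinuousLinearMap.id ℝ E‖ ≤ η / 2 := by
    intro y hy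
    have := hδF hy
    rw [hF0, dist_eq_norm] at this
    exact this.le
  have hFx0 : F 0 = 0 := by rw [hF]; simp [hf0]
  have hmv : ∀ y ∈ Metric.ball (0 : E) δ, ‖F y - y‖ ≤ η / 2 * ‖y‖ := by
    intro y hy
    have h1 : ∀ x ∈ Metric.ball (0 : E) δ, DifferentiableAt ℝ (fun z => F z - z) x :=
      fun x _ => (hFd x).sub differentiableAt_id
    have h2 : ∀ x ∈ Metric.ball (0 : E) δ, ‖fderiv ℝ (fun z => F z - z) x‖ ≤ η / 2 := by
      intro x hx
      have : fderiv ℝ (fun z => F z - z) x = fderiv ℝ F x - ContinuousLinearMap.id ℝ E :=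
        ((hFd x).hasFDerivAt.sub (hasFDerivAt_id x)).fderiv
      rw [this]
      exact hbound x hx
    have h3 := (convex_ball (0 : E) δ).norm_image_sub_le_of_norm_fderiv_le h1 h2
      (Metric.mem_ball_self hδ) hy
    simpa [hFx0] using h3
  set s : ℝ := δ / 4 with hs
  have hs0 : 0 < s := by positivity
  have hball : ∀ x : E, ‖x‖ ≤ 2 * 1 → s • x ∈ Metric.ball (0 : E) δ := by
    intro x hx
    rw [mem_ball_zero_iff, norm_smul, Real.norm_eq_abs, abs_of_pos hs0]
    calc s * ‖x‖ ≤ s * (2 * 1) := by gcongr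
      _ < δ := by rw [hs]; linarith
  obtain ⟨G, hG1, hG2, hG3⟩ := hcut r hr 1 one_pos (fun x => s⁻¹ • F (s • x))
    (contDiff_const.smul (hFC.comp (contDiff_const.smul contDiff_id))) (by
      intro x hx
      have hx' := hball x hx
      constructor
      · have h1 : HasFDerivAt (fun x : E => s • x) (s • ContinuousLinearMap.id ℝ E) x :=
          (hasFDerivAt_id x).const_smul s
        have h2 : HasFDerivAt (fun x : E => F (s • x))
            ((fderiv ℝ F (s • x)).comp (s • ContinuousLinearMap.id ℝ E)) x :=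
          (hFd (s • x)).hasFDerivAt.comp x h1
        have h3 := h2.const_smul s⁻¹
        have h4 : fderiv ℝ (fun x : E => s⁻¹ • F (s • x)) x = fderiv ℝ F (s • x) := by
          refine Eq.trans h3.fderiv ?_
          ext v
          simp [smul_smul, inv_mul_cancel₀ hs0.ne']
        rw [h4]
        linarith [hbound _ hx']
      · have h1 := hmv _ hx'
        have e : s⁻¹ • F (s • x) - x = s⁻¹ • (F (s • x) - s • x) := by
          rw [smul_sub, smul_smul, inv_mul_cancel₀ hs0.ne', one_smul]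
        rw [e, norm_smul, Real.norm_eq_abs, abs_of_pos (by positivity)]
        rw [norm_smul, Real.norm_eq_abs, abs_of_pos hs0] at h1
        calc s⁻¹ * ‖F (s • x) - s • x‖ ≤ s⁻¹ * (η / 2 * (s * ‖x‖)) := by gcongr
          _ = η / 2 * ‖x‖ := by field_simp
          _ ≤ η / 2 * (2 * 1) := by gcongr
          _ = η * 1 := by ring)
  refine ⟨L, s, hs0, G, ⟨hG1, _, hG2⟩, ?_⟩
  intro y hy
  have hy1 : ‖s⁻¹ • y‖ ≤ 1 := by
    rw [norm_smul, Real.norm_eq_abs, abs_of_pos (by positivity), inv_mul_eq_div, div_le_one hs0]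
    exact hy
  rw [Homeomorph.mul_apply, Homeomorph.mul_apply, Homeomorph.mul_apply, Homeomorph.inv_apply]
  change L ((homot s hs0.ne') (G ((homot s hs0.ne').symm y))) = f y
  rw [homot_symm_apply, hG3 _ hy1, homot_apply, smul_smul, mul_inv_cancel₀ hs0.ne', one_smul,
    smul_smul, mul_inv_cancel₀ hs0.ne', one_smul, hF]
  simp

end general

section euclidean

variable {n : ℕ}

/-- A closed subgroup containing the compactly supported diffeomorphisms and a reflection contains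
all diffeomorphisms. -/
theorem diffeo_mem {r : ℕ∞} (hr : 1 ≤ r) {H : Subgroup (Eu n ≃ₜ Eu n)}
    (hcl : IsClosed (H : Set (Eu n ≃ₜ Eu n))) (hD : compDiffeo (Eu n) r ⊆ H)
    {i₀ : Fin n} (hrefl : scale i₀ (-1) (by norm_num) ∈ H) (f : Eu n ≃ₜ Eu n)
    (hf : IsDiffeo r f) : f ∈ H := by
  -- reduce to `f 0 = 0`
  have key : ∀ f : Eu n ≃ₜ Eu n, IsDiffeo r f → f 0 = 0 → f ∈ H := by
    intro f hf hf0
    obtain ⟨L, s, hs, G, hG, hag⟩ := exists_local hr hf hf0
    set a := L.toHomeomorph * (homot s hs.ne').toHomeomorph * G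
        * (homot s hs.ne').toHomeomorph⁻¹ with ha
    have haH : a ∈ H := mul_mem (mul_mem (mul_mem (linear_mem hr hcl hD hrefl L)
      (linear_mem hr hcl hD hrefl _)) (hD hG)) (inv_mem (linear_mem hr hcl hD hrefl _))
    have had : IsDiffeo r a := (((isDiffeo_linear r L).mul (isDiffeo_linear r _)).mul hG.1).mul
      (isDiffeo_linear r _).inv
    have h1 : a⁻¹ * f ∈ H := by
      apply mem_of_eq_id_near hr hcl hD (had.inv.mul hf) hs
      intro x hx
      rw [Homeomorph.mul_apply, Homeomorph.inv_apply, a.symm_apply_eq, hag x hx]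
    have h2 : f = a * (a⁻¹ * f) := by group
    rw [h2]
    exact mul_mem haH h1
  have h1 : (transl (f 0))⁻¹ * f ∈ H := by
    apply key _ ((isDiffeo_transl r _).inv.mul hf)
    rw [Homeomorph.mul_apply, Homeomorph.inv_apply, transl_symm_apply, sub_self]
  have h2 : f = transl (f 0) * ((transl (f 0))⁻¹ * f) := by group
  rw [h2]
  exact mul_mem (transl_mem hr hcl hD _) h1

end euclidean

end Pool.Agent.W_MP_cd67d3_gt
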