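import Pool.Agent.W_MP_cd67d3_gt.Main

/-!
Compactly supported `C¹` diffeomorphisms are limits of compactly supported `C^∞` ones.
-/

open scoped ContDiff Topology NNReal Convolution
open Filter MeasureTheory ContinuousLinearMap

namespace Pool.Agent.W_MP_cd67d3_gt

attribute [local instance] homeoTopology

variable {E : Type*} [NormedAddCommGroup E] [NormedSpace ℝ E] [FiniteDimensional ℝ E]

lemma mollify {w : E → E} (hw : ContDiff ℝ 1 w) (hc : HasCompactSupport w) {ε : ℝ} (hε : 0 < ε) :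
    ∃ w' : E → E, ContDiff ℝ ∞ w' ∧ HasCompactSupport w' ∧ (∀ x, ‖w' x - w x‖ ≤ ε) ∧
      ∀ x, ‖fderiv ℝ w' x - fderiv ℝ w x‖ ≤ ε := by
  borelize E
  set μ : Measure E := Measure.addHaar with hμ
  have hcd : Continuous (fderiv ℝ w) := hw.continuous_fderiv (by norm_num)
  have hu1 : UniformContinuous w := hc.uniformContinuous_of_continuous hw.continuous
  have hu2 : UniformContinuous (fderiv ℝ w) := (hc.fderiv ℝ).uniformContinuous_of_continuous hcd
  obtain ⟨δ1, hδ1, h1⟩ := Metric.uniformContinuous_iff.1 hu1 ε hε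
  obtain ⟨δ2, hδ2, h2⟩ := Metric.uniformContinuous_iff.1 hu2 ε hε
  set δ := min δ1 δ2 with hδ
  have hδ0 : 0 < δ := lt_min hδ1 hδ2
  let φ : ContDiffBump (0 : E) := ⟨δ / 2, δ, half_pos hδ0, half_lt_self hδ0⟩
  have hli : LocallyIntegrable w μ := hw.continuous.locallyIntegrable
  have hφi : LocallyIntegrable (φ.normed μ) μ := φ.continuous_normed.locallyIntegrable
  refine ⟨φ.normed μ ⋆[lsmul ℝ ℝ, μ] w, ?_, ?_, ?_, ?_⟩
  · exact φ.hasCompactSupport_normed.contDiff_convolution_left _ φ.contDiff_normed hli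
  · exact φ.hasCompactSupport_normed.convolution _ hc
  · intro x
    rw [← dist_eq_norm]
    apply φ.dist_normed_convolution_le hw.continuous.aestronglyMeasurable
    intro y hy
    exact (h1 (lt_of_lt_of_le (Metric.mem_ball.1 hy) (min_le_left _ _))).le
  · intro x
    have hd := hc.hasFDerivAt_convolution_right (μ := μ) (lsmul ℝ ℝ) hφi hw x
    rw [hd.fderiv]
    have e : (φ.normed μ ⋆[(lsmul ℝ ℝ).precompR E, μ] fderiv ℝ w) x =
        (φ.normed μ ⋆[lsmul ℝ ℝ, μ] fderiv ℝ w) x := by
      unfold convolution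
      congr 1
    rw [e, ← dist_eq_norm]
    apply φ.dist_normed_convolution_le hcd.aestronglyMeasurable
    intro y hy
    exact (h2 (lt_of_lt_of_le (Metric.mem_ball.1 hy) (min_le_right _ _))).le

/-- If `P k` is uniformly close to the identity then `P k → 1`. -/
lemma tendsto_one {P : ℕ → (E ≃ₜ E)} {ε : ℕ → ℝ} (hε : Tendsto ε atTop (𝓝 0))
    (hP : ∀ k x, ‖P k x - x‖ ≤ ε k) : Tendsto P atTop (𝓝 1) := by
  rw [tendsto_iff]
  have hinv : ∀ k x, ‖(P k).symm x - x‖ ≤ ε k := by
    intro k x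
    have := hP k ((P k).symm x)
    rw [(P k).apply_symm_apply, norm_sub_rev] at this
    exact this
  refine Tendsto.prodMk_nhds ?_ ?_
  · rw [ContinuousMap.tendsto_iff_forall_isCompact_tendstoUniformlyOn]
    intro K _
    rw [Metric.tendstoUniformlyOn_iff]
    intro a ha
    filter_upwards [hε.eventually (gt_mem_nhds ha)] with k hk x _
    change dist x (P k x) < a
    rw [dist_comm, dist_eq_norm]
    exact lt_of_le_of_lt (hP k x) hk
  · rw [ContinuousMap.tendsto_iff_forall_isCompact_tendstoUniformlyOn]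
    intro K _
    rw [Metric.tendstoUniformlyOn_iff]
    intro a ha
    filter_upwards [hε.eventually (gt_mem_nhds ha)] with k hk x _
    change dist x ((P k).symm x) < a
    rw [dist_comm, dist_eq_norm]
    exact lt_of_le_of_lt (hinv k x) hk

theorem compDiffeo_subset_closure :
    compDiffeo E 1 ⊆ closure (compDiffeo E ⊤) := by
  have : ProperSpace E := FiniteDimensional.proper ℝ E
  have : IsTopologicalGroup (E ≃ₜ E) := isTopologicalGroup
  rintro G ⟨hG, R, hR⟩
  have hG1 : ContDiff ℝ 1 G := hG.1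
  have hG2 : ContDiff ℝ 1 G.symm := hG.2
  set w : E → E := fun x => G x - x with hw
  have hwC : ContDiff ℝ 1 w := hG1.sub contDiff_id
  have hws : HasCompactSupport w := by
    apply HasCompactSupport.intro (isCompact_closedBall (0 : E) R)
    intro x hx
    rw [mem_closedBall_zero_iff, not_le] at hx
    rw [hw]
    simp [hR x hx]
  -- bound for the derivative of the inverse
  have hvC : ContDiff ℝ 1 (fun x => G.symm x - x) := hG2.sub contDiff_id
  have hvs : HasCompactSupport (fun x => G.symm x - x) := by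
    apply HasCompactSupport.intro (isCompact_closedBall (0 : E) R)
    intro x hx
    rw [mem_closedBall_zero_iff, not_le] at hx
    simp [symm_supp hR x hx]
  obtain ⟨C, hC⟩ := (hvs.fderiv ℝ).exists_bound_of_continuous
    (hvC.continuous_fderiv (by norm_num))
  have hC0 : 0 ≤ C := le_trans (norm_nonneg _) (hC 0)
  have hGs : ∀ x, ‖fderiv ℝ G.symm x‖ ≤ C + 1 := by
    intro x
    have e : fderiv ℝ G.symm x = fderiv ℝ (fun x => G.symm x - x) x
        + ContinuousLinearMap.id ℝ E := by
      have h1 : HasFDerivAt (fun x => G.symm x - x)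
          (fderiv ℝ G.symm x - ContinuousLinearMap.id ℝ E) x :=
        ((hG2.differentiable (by norm_num)) x).hasFDerivAt.sub (hasFDerivAt_id x)
      rw [h1.fderiv]; abel
    rw [e]
    refine le_trans (norm_add_le _ _) (add_le_add (hC x) ContinuousLinearMap.norm_id_le)
  -- the approximating sequence
  have step : ∀ k : ℕ, ∃ P : E ≃ₜ E, P * G ∈ compDiffeo E ⊤ ∧
      ∀ x, ‖P x - x‖ ≤ 1 / (2 * (C + 1) * ((k : ℝ) + 1)) := by
    intro k
    set ε : ℝ := 1 / (2 * (C + 1) * ((k : ℝ) + 1)) with hε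
    have hε0 : 0 < ε := by positivity
    obtain ⟨w', hw'C, hw's, hw'1, hw'2⟩ := mollify hwC hws hε0
    have hw'C1 : ContDiff ℝ 1 w' := hw'C.of_le ENat.LEInfty.out
    set u : E → E := fun x => w' (G.symm x) - w (G.symm x) with hu
    have huC : ContDiff ℝ 1 u := (hw'C1.comp hG2).sub (hwC.comp hG2)
    have hub : ∀ x, ‖fderiv ℝ u x‖ ≤ 1 / 2 := by
      intro x
      have h1 : HasFDerivAt (fun x => w' x - w x)
          (fderiv ℝ w' (G.symm x) - fderiv ℝ w (G.symm x)) (G.symm x) :=
        ((hw'C1.differentiable (by norm_num)) _).hasFDerivAt.sub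
          ((hwC.differentiable (by norm_num)) _).hasFDerivAt
      have h2 : HasFDerivAt u ((fderiv ℝ w' (G.symm x) - fderiv ℝ w (G.symm x)).comp
          (fderiv ℝ G.symm x)) x :=
        h1.comp x ((hG2.differentiable (by norm_num)) x).hasFDerivAt
      rw [h2.fderiv]
      calc _ ≤ ‖fderiv ℝ w' (G.symm x) - fderiv ℝ w (G.symm x)‖ * ‖fderiv ℝ G.symm x‖ :=
            ContinuousLinearMap.opNorm_comp_le _ _
        _ ≤ ε * (C + 1) := mul_le_mul (hw'2 _) (hGs x) (norm_nonneg _) hε0.le
        _ = 1 / (2 * ((k : ℝ) + 1)) := by rw [hε]; field_simp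
        _ ≤ 1 / 2 := by
          apply one_div_le_one_div_of_le (by norm_num)
          have : (0 : ℝ) ≤ k := Nat.cast_nonneg k
          linarith
    obtain ⟨P, hP1, hP2⟩ := exists_diffeo_of_small (r := 1) le_rfl huC hub
    have hPG : ∀ x, (P * G) x = x + w' x := by
      intro x
      rw [Homeomorph.mul_apply, hP2, hu]
      simp only [G.symm_apply_apply, hw]
      abel
    have hPGC : ContDiff ℝ ∞ (P * G : E ≃ₜ E) := by
      have : ((P * G : E ≃ₜ E) : E → E) = fun x => x + w' x := funext hPG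
      rw [this]
      exact contDiff_id.add hw'C
    have hPGd : IsDiffeo 1 (P * G) := hP1.mul hG
    refine ⟨P, ⟨⟨hPGC, ?_⟩, ?_⟩, ?_⟩
    · choose L hL using fun x => exists_deriv_equiv (r := 1) le_rfl hPGd x
      exact (P * G).contDiff_symm hL hPGC
    · obtain ⟨R', hR'⟩ := hw's.isCompact.isBounded.exists_norm_le
      refine ⟨R', fun x hx => ?_⟩
      rw [hPG]
      have : w' x = 0 := by
        by_contra hne
        have := hR' x (subset_tsupport w' hne)
        linarith
      rw [this, add_zero]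
    · intro x
      rw [hP2, add_sub_cancel_left]
      exact hw'1 _
  choose P hP1 hP2 using step
  have hlim : Tendsto (fun k : ℕ => 1 / (2 * (C + 1) * ((k : ℝ) + 1))) atTop (𝓝 0) := by
    have h1 := tendsto_one_div_add_atTop_nhds_zero_nat (𝕜 := ℝ)
    have h2 := h1.const_mul (1 / (2 * (C + 1)))
    rw [mul_zero] at h2
    refine h2.congr fun k => ?_
    field_simp
  have hPt : Tendsto P atTop (𝓝 1) := tendsto_one hlim hP2
  have hPG : Tendsto (fun k => P k * G) atTop (𝓝 (1 * G)) := hPt.mul tendsto_const_nhds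
  rw [one_mul] at hPG
  exact mem_closure_of_tendsto hPG (Eventually.of_forall hP1)

/-- **Main theorem**: three `C^∞` diffeomorphisms of `ℝⁿ` topologically generate the group of
`C¹` diffeomorphisms. -/
theorem main (n : ℕ) : ∃ h₁ h₂ h₃ : Eu n ≃ₜ Eu n, IsDiffeo ⊤ h₁ ∧ IsDiffeo ⊤ h₂ ∧ IsDiffeo ⊤ h₃ ∧
    ∀ g : Eu n ≃ₜ Eu n, IsDiffeo 1 g →
      g ∈ closure (Subgroup.closure {h₁, h₂, h₃} : Set (Eu n ≃ₜ Eu n)) := by
  rcases Nat.eq_zero_or_pos n with h0 | hpos
  · subst h0
    refine ⟨1, 1, 1, isDiffeo_one _, isDiffeo_one _, isDiffeo_one _, fun g _ => ?_⟩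
    have : g = 1 := by
      ext x i
      exact i.elim0
    rw [this]
    exact subset_closure (one_mem _)
  · have : IsTopologicalGroup (Eu n ≃ₜ Eu n) := isTopologicalGroup
    set i₀ : Fin n := ⟨0, hpos⟩
    set v : Eu n := EuclideanSpace.single i₀ 1 with hv
    have hv1 : ‖v‖ = 1 := by rw [hv, PiLp.norm_single, norm_one]
    obtain ⟨Φ, hΦ1, hΦ2⟩ := encode hv1 (compDiffeo (Eu n) ⊤) (fun h hh => hh.2)
    set ρ : Eu n ≃ₜ Eu n := scale i₀ (-1) (by norm_num) with hρ
    refine ⟨transl v, Φ, ρ, isDiffeo_transl _ v, hΦ1 ⊤ (fun h hh => hh.1), ?_, ?_⟩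
    · have h1 : ContDiff ℝ (⊤ : ℕ∞) (fun x : Eu n => x + elem i₀ i₀ (-1 - 1) x) :=
        contDiff_id.add (elem i₀ i₀ (-1 - 1)).contDiff
      have h2 : ContDiff ℝ (⊤ : ℕ∞) (fun x : Eu n => x + elem i₀ i₀ ((-1)⁻¹ - 1) x) :=
        contDiff_id.add (elem i₀ i₀ ((-1)⁻¹ - 1)).contDiff
      exact ⟨h1, h2⟩
    · set H : Subgroup (Eu n ≃ₜ Eu n) :=
        (Subgroup.closure {transl v, Φ, ρ}).topologicalClosure with hH
      have hcl : IsClosed (H : Set (Eu n ≃ₜ Eu n)) :=
        (Subgroup.closure {transl v, Φ, ρ}).isClosed_topologicalClosure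
      have hsub : (closure (Subgroup.closure {transl v, Φ} : Set (Eu n ≃ₜ Eu n))) ⊆ H := by
        apply closure_mono
        have : ({transl v, Φ} : Set (Eu n ≃ₜ Eu n)) ⊆ {transl v, Φ, ρ} := by
          intro x hx
          rcases hx with rfl | rfl
          · simp
          · simp
        exact Subgroup.closure_mono this
      have hD0 : compDiffeo (Eu n) ⊤ ⊆ H := hΦ2.trans hsub
      have hD1 : compDiffeo (Eu n) 1 ⊆ H :=
        compDiffeo_subset_closure.trans (closure_minimal hD0 hcl)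
      have hrefl : ρ ∈ H := subset_closure (Subgroup.subset_closure (by simp))
      intro g hg
      exact diffeo_mem (r := 1) le_rfl hcl hD1 hrefl g hg

end Pool.Agent.W_MP_cd67d3_gt
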