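import Pool.Agent.W_MP_cd67d3_gt.Defs

/-!
The compact-open topology on the group of homeomorphisms is a group topology; criteria for
membership in closures.
-/

open scoped ContDiff Topology
open Filter

namespace Pool.Agent.W_MP_cd67d3_gt

attribute [local instance] homeoTopology

section general

variable {X : Type*} [TopologicalSpace X]

lemma toPair_mul (g h : X ≃ₜ X) :
    toPair (g * h) = ((toPair g).1.comp (toPair h).1, (toPair h).2.comp (toPair g).2) := rfl

lemma toPair_inv (g : X ≃ₜ X) : toPair g⁻¹ = ((toPair g).2, (toPair g).1) := rfl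

lemma continuous_toPair : Continuous (toPair : (X ≃ₜ X) → _) := continuous_induced_dom

lemma continuous_iff {Y : Type*} [TopologicalSpace Y] (f : Y → (X ≃ₜ X)) :
    Continuous f ↔ Continuous (toPair ∘ f) := continuous_induced_rng

lemma tendsto_iff {ι : Type*} {l : Filter ι} (f : ι → (X ≃ₜ X)) (h : X ≃ₜ X) :
    Tendsto f l (𝓝 h) ↔ Tendsto (toPair ∘ f) l (𝓝 (toPair h)) := by
  have : 𝓝 h = comap toPair (𝓝 (toPair h)) := nhds_induced _ _
  rw [this, tendsto_comap_iff]

lemma isTopologicalGroup [LocallyCompactSpace X] : IsTopologicalGroup (X ≃ₜ X) where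
  continuous_mul := by
    rw [continuous_iff]
    have h1 : Continuous fun p : (X ≃ₜ X) × (X ≃ₜ X) => toPair p.1 :=
      continuous_toPair.comp continuous_fst
    have h2 : Continuous fun p : (X ≃ₜ X) × (X ≃ₜ X) => toPair p.2 :=
      continuous_toPair.comp continuous_snd
    have e : (toPair ∘ fun p : (X ≃ₜ X) × (X ≃ₜ X) => p.1 * p.2) =
        fun p => ((toPair p.1).1.comp (toPair p.2).1, (toPair p.2).2.comp (toPair p.1).2) := by
      funext p
      exact toPair_mul p.1 p.2
    rw [e]
    refine Continuous.prodMk ?_ ?_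
    · exact ContinuousMap.continuous_comp'.comp
        ((continuous_fst.comp h2).prodMk (continuous_fst.comp h1))
    · exact ContinuousMap.continuous_comp'.comp
        ((continuous_snd.comp h1).prodMk (continuous_snd.comp h2))
  continuous_inv := by
    rw [continuous_iff]
    have e : (toPair ∘ fun g : X ≃ₜ X => g⁻¹) = fun g => ((toPair g).2, (toPair g).1) := by
      funext g
      exact toPair_inv g
    rw [e]
    exact (continuous_snd.comp continuous_toPair).prodMk (continuous_fst.comp continuous_toPair)

lemma secondCountable [LocallyCompactSpace X] [SecondCountableTopology X] :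
    SecondCountableTopology (X ≃ₜ X) :=
  TopologicalSpace.secondCountableTopology_induced (X ≃ₜ X) _ toPair

/-- Every set of homeomorphisms has a countable dense subset. -/
lemma exists_countable_dense_subset [LocallyCompactSpace X] [SecondCountableTopology X]
    (D : Set (X ≃ₜ X)) : ∃ S ⊆ D, S.Countable ∧ D ⊆ closure S := by
  have := secondCountable (X := X)
  obtain ⟨T, hTc, hTd⟩ := TopologicalSpace.exists_countable_dense D
  refine ⟨Subtype.val '' T, ?_, hTc.image _, ?_⟩
  · rintro _ ⟨y, _, rfl⟩
    exact y.2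
  · intro d hd
    have h : (⟨d, hd⟩ : D) ∈ closure T := hTd _
    exact image_closure_subset_closure_image continuous_subtype_val ⟨_, h, rfl⟩

end general

section normed

variable {E : Type*} [NormedAddCommGroup E] [ProperSpace E]

/-- A homeomorphism which, on arbitrarily large balls, agrees (together with its inverse) with
elements of `A`, lies in the closure of `A`. -/
lemma mem_closure_of_agree {A : Set (E ≃ₜ E)} {h : E ≃ₜ E}
    (H : ∀ R : ℝ, ∃ g ∈ A, ∀ x, ‖x‖ ≤ R → g x = h x ∧ g.symm x = h.symm x) :
    h ∈ closure A := by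
  choose g hgA hg using fun k : ℕ => H k
  refine mem_closure_of_tendsto (f := g) (b := atTop) ?_ (Eventually.of_forall hgA)
  rw [tendsto_iff]
  have key : ∀ K : Set E, IsCompact K → ∃ N : ℕ, ∀ k ≥ N, ∀ x ∈ K,
      g k x = h x ∧ (g k).symm x = h.symm x := by
    intro K hK
    obtain ⟨R, hR⟩ := hK.isBounded.exists_norm_le
    obtain ⟨N, hN⟩ := exists_nat_ge R
    refine ⟨N, fun k hk x hx => hg k x ?_⟩
    calc ‖x‖ ≤ R := hR x hx
      _ ≤ N := hN
      _ ≤ k := by exact_mod_cast hk
  refine Tendsto.prodMk_nhds ?_ ?_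
  · rw [ContinuousMap.tendsto_iff_forall_isCompact_tendstoUniformlyOn]
    intro K hK
    obtain ⟨N, hN⟩ := key K hK
    intro U hU
    filter_upwards [eventually_ge_atTop N] with k hk x hx
    have := (hN k hk x hx).1
    change (h x, g k x) ∈ U
    rw [this]
    exact refl_mem_uniformity hU
  · rw [ContinuousMap.tendsto_iff_forall_isCompact_tendstoUniformlyOn]
    intro K hK
    obtain ⟨N, hN⟩ := key K hK
    intro U hU
    filter_upwards [eventually_ge_atTop N] with k hk x hx
    have := (hN k hk x hx).2
    change (h.symm x, (g k).symm x) ∈ U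
    rw [this]
    exact refl_mem_uniformity hU

/-- The same, where agreement of the inverses is automatic. -/
lemma mem_closure_of_agree' {A : Set (E ≃ₜ E)} {h : E ≃ₜ E}
    (H : ∀ R : ℝ, ∃ g ∈ A, ∀ x, ‖x‖ ≤ R → g x = h x) :
    h ∈ closure A := by
  apply mem_closure_of_agree
  intro R
  have hK : IsCompact (h.symm '' (Metric.closedBall 0 R)) :=
    (isCompact_closedBall 0 R).image h.symm.continuous
  obtain ⟨R', hR'⟩ := hK.isBounded.exists_norm_le
  obtain ⟨g, hgA, hg⟩ := H (max R R')
  refine ⟨g, hgA, fun x hx => ⟨hg x (le_trans hx (le_max_left _ _)), ?_⟩⟩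
  have h1 : ‖h.symm x‖ ≤ R' := hR' _ ⟨x, mem_closedBall_zero_iff.2 hx, rfl⟩
  have h2 := hg (h.symm x) (le_trans h1 (le_max_right _ _))
  rw [h.apply_symm_apply] at h2
  rw [← h2, g.symm_apply_apply, h2]

end normed

end Pool.Agent.W_MP_cd67d3_gt
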